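import Pool.Agent.H447.QR.Stm

/-!
# Project QR (helper447), MP_d6ddbd_nt: task F2, the covariant quadratic form of a quartic
-/

set_option autoImplicit false

namespace Pool.Agent.H355.QR.F2

open Pool.Agent.H447.QR

open Polynomial in
theorem roots4 (A B C D E : ℂ) (hA : A ≠ 0) : ∃ t0 t1 t2 t3 : ℂ, ∀ x : ℂ,
    A * x ^ 4 + B * x ^ 3 + C * x ^ 2 + D * x + E =
      A * ((x - t0) * (x - t1) * (x - t2) * (x - t3)) := by
  set p : ℂ[X] := Polynomial.C A * X ^ 4 + Polynomial.C B * X ^ 3 + Polynomial.C C * X ^ 2 +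
    Polynomial.C D * X + Polynomial.C E with hp
  have hdeg : p.natDegree = 4 := by
    rw [hp]; compute_degree!
  have hlead : p.leadingCoeff = A := by
    rw [leadingCoeff, hdeg, hp]
    simp
  have hs := IsAlgClosed.splits p
  have hc : p.roots.card = 4 := by rw [← hs.natDegree_eq_card_roots, hdeg]
  obtain ⟨t0, ht0⟩ := Multiset.card_pos_iff_exists_mem.1 (show 0 < p.roots.card by omega)
  obtain ⟨m, h0⟩ := Multiset.exists_cons_of_mem ht0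
  have hm : m.card = 3 := by
    have := congrArg Multiset.card h0
    rw [Multiset.card_cons] at this
    omega
  obtain ⟨t1, t2, t3, hm3⟩ := Multiset.card_eq_three.1 hm
  refine ⟨t0, t1, t2, t3, fun x => ?_⟩
  have h1 := hs.eval_eq_prod_roots x
  rw [h0, hm3, hlead] at h1
  have h2 : eval x p = A * x ^ 4 + B * x ^ 3 + C * x ^ 2 + D * x + E := by
    rw [hp]; simp
  rw [← h2, h1]
  simp only [Multiset.map_cons, Multiset.insert_eq_cons, Multiset.map_singleton, Multiset.prod_cons,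
    Multiset.prod_singleton]
  ring

/-- Vieta -/
theorem vieta (A B C D E t0 t1 t2 t3 : ℂ)
    (h : ∀ x : ℂ, A * x ^ 4 + B * x ^ 3 + C * x ^ 2 + D * x + E =
      A * ((x - t0) * (x - t1) * (x - t2) * (x - t3))) :
    B = -A * (t0 + t1 + t2 + t3) ∧
    C = A * (t0 * t1 + t0 * t2 + t0 * t3 + t1 * t2 + t1 * t3 + t2 * t3) ∧
    D = -A * (t0 * t1 * t2 + t0 * t1 * t3 + t0 * t2 * t3 + t1 * t2 * t3) ∧
    E = A * (t0 * t1 * t2 * t3) := by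
  have h0 := h 0
  have h1 := h 1
  have h2 := h (-1)
  have h3 := h 2
  have h4 := h (-2)
  have hE : E = A * (t0 * t1 * t2 * t3) := by linear_combination h0
  have hC : C = A * (t0 * t1 + t0 * t2 + t0 * t3 + t1 * t2 + t1 * t3 + t2 * t3) := by
    linear_combination (1/2) * h1 + (1/2) * h2 - hE
  have hB : B = -A * (t0 + t1 + t2 + t3) := by
    linear_combination (1/12) * (h3 - h4) - (1/6) * (h1 - h2)
  refine ⟨hB, hC, ?_, hE⟩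
  linear_combination (1/2) * (h1 - h2) - hB

/-- the norm identity -/
theorem sumId (w0 w1 w2 w3 : ℝ) (t0 t1 t2 t3 : ℂ)
    (him : w0 * t0.im + w1 * t1.im + w2 * t2.im + w3 * t3.im = 0) :
    4 * (w0 + w1 + w2 + w3) * (w0 * ‖t0‖ ^ 2 + w1 * ‖t1‖ ^ 2 + w2 * ‖t2‖ ^ 2 + w3 * ‖t3‖ ^ 2) -
      (-2 * (w0 * t0.re + w1 * t1.re + w2 * t2.re + w3 * t3.re)) ^ 2 =
    4 * (w0 * w1 * ‖t0 - t1‖ ^ 2 + w2 * w3 * ‖t2 - t3‖ ^ 2 + (w0 * w2 * ‖t0 - t2‖ ^ 2 +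
      w1 * w3 * ‖t1 - t3‖ ^ 2) + (w0 * w3 * ‖t0 - t3‖ ^ 2 + w1 * w2 * ‖t1 - t2‖ ^ 2)) := by
  simp only [← Complex.normSq_eq_norm_sq, Complex.normSq_apply, Complex.sub_re, Complex.sub_im]
  linear_combination 4 * (w0 * t0.im + w1 * t1.im + w2 * t2.im + w3 * t3.im) * him

/-- bound for the roots of the resolvent -/
theorem resBound (U I N : ℝ) (hU : 0 ≤ U) (hI : 0 ≤ I) (hN : 0 ≤ N) (h : U ^ 3 ≤ I * U + N) :
    U ≤ 1 + I + N := by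
  by_contra hc
  push Not at hc
  have h1 : 1 < U := by linarith
  have h2 : U ^ 2 * (1 + I + N) < U ^ 3 := by
    nlinarith [mul_pos (show (0:ℝ) < U ^ 2 by positivity) (show 0 < U - (1 + I + N) by linarith)]
  have h3 : U ≤ U ^ 2 := by nlinarith
  nlinarith [mul_nonneg hI (show 0 ≤ U ^ 2 - U by linarith),
    mul_nonneg hN (show 0 ≤ U ^ 2 - 1 by nlinarith)]

/-- the sum of `w t`, `t` a root, is real -/
theorem imZero (A B C D E : ℝ) (hA : A ≠ 0) (t0 t1 t2 t3 : ℂ)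
    (h : ∀ x : ℂ, (A : ℂ) * x ^ 4 + B * x ^ 3 + C * x ^ 2 + D * x + E =
      A * ((x - t0) * (x - t1) * (x - t2) * (x - t3)))
    (h01 : t0 ≠ t1) (h02 : t0 ≠ t2) (h03 : t0 ≠ t3) (h12 : t1 ≠ t2) (h13 : t1 ≠ t3)
    (h23 : t2 ≠ t3) (f : ℂ → ℝ) (hf : ∀ t, f ((starRingEnd ℂ) t) = f t) :
    f t0 * t0.im + f t1 * t1.im + f t2 * t2.im + f t3 * t3.im = 0 := by
  have hmem : ∀ t : ℂ, t ∈ ({t0, t1, t2, t3} : Finset ℂ) ↔
      (A : ℂ) * t ^ 4 + B * t ^ 3 + C * t ^ 2 + D * t + E = 0 := by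
    intro t
    rw [h t]
    have hA' : (A : ℂ) ≠ 0 := by exact_mod_cast hA
    simp only [Finset.mem_insert, Finset.mem_singleton, mul_eq_zero, hA', false_or, sub_eq_zero]
    tauto
  have hconj : ∀ t : ℂ, t ∈ ({t0, t1, t2, t3} : Finset ℂ) →
      (starRingEnd ℂ) t ∈ ({t0, t1, t2, t3} : Finset ℂ) := by
    intro t ht
    rw [hmem] at ht ⊢
    have := congrArg (starRingEnd ℂ) ht
    simpa only [map_add, map_mul, map_pow, Complex.conj_ofReal, map_zero] using this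
  have hsum : ∑ t ∈ ({t0, t1, t2, t3} : Finset ℂ), f t * t.im =
      ∑ t ∈ ({t0, t1, t2, t3} : Finset ℂ), -(f t * t.im) := by
    refine Finset.sum_nbij' (fun t => (starRingEnd ℂ) t) (fun t => (starRingEnd ℂ) t)
      hconj hconj (fun t _ => Complex.conj_conj t) (fun t _ => Complex.conj_conj t) ?_
    intro t _
    rw [hf, Complex.conj_im]
    ring
  rw [Finset.sum_insert (by simp [h01, h02, h03]), Finset.sum_insert (by simp [h12, h13]),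
    Finset.sum_insert (by simp [h23]), Finset.sum_singleton,
    Finset.sum_insert (by simp [h01, h02, h03]), Finset.sum_insert (by simp [h12, h13]),
    Finset.sum_insert (by simp [h23]), Finset.sum_singleton] at hsum
  linarith

/-- the identities for the resolvent -/
theorem resId (A t0 t1 t2 t3 B C D E U V W : ℂ)
    (hB : B = -A * (t0 + t1 + t2 + t3))
    (hC : C = A * (t0 * t1 + t0 * t2 + t0 * t3 + t1 * t2 + t1 * t3 + t2 * t3))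
    (hD : D = -A * (t0 * t1 * t2 + t0 * t1 * t3 + t0 * t2 * t3 + t1 * t2 * t3))
    (hE : E = A * (t0 * t1 * t2 * t3))
    (hU : U = A * (t0 - t1) * (t2 - t3)) (hV : V = A * (t0 - t2) * (t3 - t1))
    (hW : W = A * (t0 - t3) * (t1 - t2)) :
    U + V + W = 0 ∧ 12 * A * E - 3 * B * D + C ^ 2 = -(U * V + V * W + W * U) ∧
    72 * A * C * E + 9 * B * C * D - 27 * A * D ^ 2 - 27 * E * B ^ 2 - 2 * C ^ 3 =
      (U - V) * (V - W) * (W - U) := by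
  subst hB hC hD hE hU hV hW
  refine ⟨by ring, by ring, by ring⟩

/-- the discriminant -/
theorem discId (I J U V W : ℂ) (h0 : U + V + W = 0) (hI : I = -(U * V + V * W + W * U))
    (hJ : J = (U - V) * (V - W) * (W - U)) :
    4 * I ^ 3 - J ^ 2 = 27 * (U * V * W) ^ 2 ∧ U ^ 3 = I * U + U * V * W ∧
      V ^ 3 = I * V + U * V * W ∧ W ^ 3 = I * W + U * V * W := by
  have hW : W = -U - V := by linear_combination h0
  subst hI hJ hW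
  refine ⟨by ring, by ring, by ring, by ring⟩

/-- the real algebra -/
theorem realAlg (a d01 d02 d03 d12 d13 d23 : ℝ) (ha : 0 < a) (h01 : 0 < d01) (h02 : 0 < d02)
    (h03 : 0 < d03) (h12 : 0 < d12) (h13 : 0 < d13) (h23 : 0 < d23) (w0 w1 w2 w3 u v w N : ℝ)
    (hw0 : w0 = (a * d01 * d02 * d03)⁻¹) (hw1 : w1 = (a * d01 * d12 * d13)⁻¹)
    (hw2 : w2 = (a * d02 * d12 * d23)⁻¹) (hw3 : w3 = (a * d03 * d13 * d23)⁻¹)
    (hu : u = a * d01 * d23) (hv : v = a * d02 * d13) (hw : w = a * d03 * d12)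
    (hN : N = u * v * w) :
    w0 * w1 * d01 ^ 2 + w2 * w3 * d23 ^ 2 + (w0 * w2 * d02 ^ 2 + w1 * w3 * d13 ^ 2) +
      (w0 * w3 * d03 ^ 2 + w1 * w2 * d12 ^ 2) = 2 * (u + v + w) / N ∧
    a ^ 2 = N ^ 2 * (w0 * w1 * w2 * w3) := by
  subst hw0 hw1 hw2 hw3 hN hu hv hw
  constructor
  · field_simp
    ring
  · field_simp

/-- numerical bounds -/
theorem numB (i j T : ℝ) (hi : 0 ≤ i) (hj : 0 ≤ j) (hT : T = i + j + 2) (N u v w M : ℝ)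
    (hN : 0 < N) (h1 : 1 ≤ 27 * N ^ 2) (h2 : 27 * N ^ 2 ≤ 4 * i ^ 3 + j ^ 2)
    (hu : u ≤ 1 + i + N) (hv : v ≤ 1 + i + N) (hw : w ≤ 1 + i + N)
    (hM : M = 4 * (2 * (u + v + w) / N)) : M ≤ T ^ 20 ∧ N ≤ T ^ 20 := by
  have hT2 : 2 ≤ T := by rw [hT]; linarith
  have hT1 : 1 ≤ T := by linarith
  have hNlow : 1 / 6 ≤ N := by
    by_contra hc
    push Not at hc
    nlinarith
  have hiT : i ≤ T := by rw [hT]; linarith
  have hjT : j ≤ T := by rw [hT]; linarith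
  have hi3 : i ^ 3 ≤ T ^ 3 := pow_le_pow_left₀ hi hiT 3
  have hj2 : j ^ 2 ≤ T ^ 2 := pow_le_pow_left₀ hj hjT 2
  have hT3 : T ^ 3 ≤ T ^ 4 := pow_le_pow_right₀ hT1 (by norm_num)
  have hT24 : T ^ 2 ≤ T ^ 4 := pow_le_pow_right₀ hT1 (by norm_num)
  have hNT : N ≤ T ^ 2 := by
    have h3 : N ^ 2 ≤ (T ^ 2) ^ 2 := by nlinarith
    exact (pow_le_pow_iff_left₀ hN.le (by positivity) (by norm_num)).1 h3
  have hT220 : T ^ 2 ≤ T ^ 20 := pow_le_pow_right₀ hT1 (by norm_num)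
  refine ⟨?_, hNT.trans hT220⟩
  have h4 : M ≤ 24 * (1 + i + N) / N := by
    rw [hM, ← mul_div_assoc]
    exact div_le_div_of_nonneg_right (by linarith) hN.le
  have h5 : 24 * (1 + i + N) / N ≤ 168 * T := by
    rw [div_le_iff₀ hN]
    have h6 : (1 + i) ≤ 6 * T * N := by
      have : 1 + i ≤ T := by rw [hT]; linarith
      nlinarith
    nlinarith
  have h7 : (168 : ℝ) * T ≤ T ^ 20 := by
    have h8 : (168 : ℝ) ≤ T ^ 8 := by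
      calc (168 : ℝ) ≤ 2 ^ 8 := by norm_num
        _ ≤ T ^ 8 := pow_le_pow_left₀ (by norm_num) hT2 8
    calc (168 : ℝ) * T ≤ T ^ 8 * T := by nlinarith
      _ = T ^ 9 := by ring
      _ ≤ T ^ 20 := pow_le_pow_right₀ hT1 (by norm_num)
  linarith

theorem t_F2 : S_F2 := by
  refine ⟨20, fun g hA hdisc => ?_⟩
  have hAR : (g.A : ℝ) ≠ 0 := by exact_mod_cast hA
  have hAC : ((g.A : ℝ) : ℂ) ≠ 0 := by exact_mod_cast hA
  obtain ⟨t0, t1, t2, t3, hfac⟩ := roots4 ((g.A : ℝ) : ℂ) ((g.B : ℝ) : ℂ) ((g.C : ℝ) : ℂ)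
    ((g.D : ℝ) : ℂ) ((g.E : ℝ) : ℂ) hAC
  obtain ⟨hB, hC, hD, hE⟩ := vieta _ _ _ _ _ _ _ _ _ hfac
  obtain ⟨U, hU⟩ : ∃ U : ℂ, U = ((g.A : ℝ) : ℂ) * (t0 - t1) * (t2 - t3) := ⟨_, rfl⟩
  obtain ⟨V, hV⟩ : ∃ V : ℂ, V = ((g.A : ℝ) : ℂ) * (t0 - t2) * (t3 - t1) := ⟨_, rfl⟩
  obtain ⟨W, hW⟩ : ∃ W : ℂ, W = ((g.A : ℝ) : ℂ) * (t0 - t3) * (t1 - t2) := ⟨_, rfl⟩
  obtain ⟨hs, hIr, hJr⟩ := resId _ _ _ _ _ _ _ _ _ U V W hB hC hD hE hU hV hW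
  have hIc : 12 * ((g.A : ℝ) : ℂ) * ((g.E : ℝ) : ℂ) - 3 * ((g.B : ℝ) : ℂ) * ((g.D : ℝ) : ℂ) +
      ((g.C : ℝ) : ℂ) ^ 2 = (((g.I : ℤ) : ℝ) : ℂ) := by
    simp only [Qf.I]; push_cast; ring
  have hJc : 72 * ((g.A : ℝ) : ℂ) * ((g.C : ℝ) : ℂ) * ((g.E : ℝ) : ℂ) +
      9 * ((g.B : ℝ) : ℂ) * ((g.C : ℝ) : ℂ) * ((g.D : ℝ) : ℂ) -
      27 * ((g.A : ℝ) : ℂ) * ((g.D : ℝ) : ℂ) ^ 2 - 27 * ((g.E : ℝ) : ℂ) * ((g.B : ℝ) : ℂ) ^ 2 -
      2 * ((g.C : ℝ) : ℂ) ^ 3 = (((g.J : ℤ) : ℝ) : ℂ) := by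
    simp only [Qf.J]; push_cast; ring
  rw [hIc] at hIr
  rw [hJc] at hJr
  obtain ⟨hd, hU3, hV3, hW3⟩ := discId _ _ U V W hs hIr hJr
  -- the norm
  obtain ⟨N, hN⟩ : ∃ N : ℝ, N = ‖U‖ * ‖V‖ * ‖W‖ := ⟨_, rfl⟩
  have hN' : N = ‖U * V * W‖ := by rw [hN, norm_mul, norm_mul]
  have hN2 : 27 * N ^ 2 = |4 * ((g.I : ℤ) : ℝ) ^ 3 - ((g.J : ℤ) : ℝ) ^ 2| := by
    have h1 : 27 * N ^ 2 = ‖27 * (U * V * W) ^ 2‖ := by
      rw [norm_mul, norm_pow, ← hN']; norm_num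
    rw [h1, ← hd]
    have h2 : (4 * (((g.I : ℤ) : ℝ) : ℂ) ^ 3 - (((g.J : ℤ) : ℝ) : ℂ) ^ 2) =
        ((4 * ((g.I : ℤ) : ℝ) ^ 3 - ((g.J : ℤ) : ℝ) ^ 2 : ℝ) : ℂ) := by push_cast; ring
    rw [h2, Complex.norm_real, Real.norm_eq_abs]
  have hN1 : 1 ≤ 27 * N ^ 2 := by
    rw [hN2]
    have h1 : (1 : ℤ) ≤ |4 * g.I ^ 3 - g.J ^ 2| := Int.one_le_abs (sub_ne_zero.2 hdisc)
    have h2 : ((1 : ℤ) : ℝ) ≤ ((|4 * g.I ^ 3 - g.J ^ 2| : ℤ) : ℝ) := by exact_mod_cast h1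
    push_cast at h2
    exact h2
  have hNnn : 0 ≤ N := by rw [hN]; positivity
  have hNpos : 0 < N := by
    rcases hNnn.lt_or_eq with h | h
    · exact h
    · rw [← h] at hN1; norm_num at hN1
  have hUVW : U * V * W ≠ 0 := by
    intro h; rw [hN', h, norm_zero] at hNpos; exact lt_irrefl _ hNpos
  have hU0 : U ≠ 0 := fun h => hUVW (by rw [h]; ring)
  have hV0 : V ≠ 0 := fun h => hUVW (by rw [h]; ring)
  have hW0 : W ≠ 0 := fun h => hUVW (by rw [h]; ring)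
  have h01 : t0 - t1 ≠ 0 := fun h => hU0 (by rw [hU, h]; ring)
  have h23 : t2 - t3 ≠ 0 := fun h => hU0 (by rw [hU, h]; ring)
  have h02 : t0 - t2 ≠ 0 := fun h => hV0 (by rw [hV, h]; ring)
  have h31 : t3 - t1 ≠ 0 := fun h => hV0 (by rw [hV, h]; ring)
  have h13 : t1 - t3 ≠ 0 := fun h => h31 (by rw [← neg_sub, h, neg_zero])
  have h03 : t0 - t3 ≠ 0 := fun h => hW0 (by rw [hW, h]; ring)
  have h12 : t1 - t2 ≠ 0 := fun h => hW0 (by rw [hW, h]; ring)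
  -- weights
  obtain ⟨f, hf⟩ : ∃ f : ℂ → ℝ, f = fun t : ℂ => ‖4 * ((g.A : ℝ) : ℂ) * t ^ 3 +
      3 * ((g.B : ℝ) : ℂ) * t ^ 2 + 2 * ((g.C : ℝ) : ℂ) * t + ((g.D : ℝ) : ℂ)‖⁻¹ := ⟨_, rfl⟩
  have hfc : ∀ t, f ((starRingEnd ℂ) t) = f t := by
    intro t
    simp only [hf]
    congr 1
    rw [← Complex.norm_conj (4 * ((g.A : ℝ) : ℂ) * t ^ 3 +
      3 * ((g.B : ℝ) : ℂ) * t ^ 2 + 2 * ((g.C : ℝ) : ℂ) * t + ((g.D : ℝ) : ℂ))]
    congr 1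
    simp only [map_add, map_mul, map_pow, Complex.conj_ofReal, map_ofNat]
  have him := imZero (g.A : ℝ) (g.B : ℝ) (g.C : ℝ) (g.D : ℝ) (g.E : ℝ) hAR t0 t1 t2 t3 hfac
    (sub_ne_zero.1 h01) (sub_ne_zero.1 h02) (sub_ne_zero.1 h03) (sub_ne_zero.1 h12)
    (sub_ne_zero.1 h13) (sub_ne_zero.1 h23) f hfc
  have hf0 : f t0 = (‖((g.A : ℝ) : ℂ)‖ * ‖t0 - t1‖ * ‖t0 - t2‖ * ‖t0 - t3‖)⁻¹ := by
    simp only [hf]
    rw [← norm_mul, ← norm_mul, ← norm_mul]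
    congr 2
    rw [hB, hC, hD]; ring
  have hf1 : f t1 = (‖((g.A : ℝ) : ℂ)‖ * ‖t0 - t1‖ * ‖t1 - t2‖ * ‖t1 - t3‖)⁻¹ := by
    simp only [hf]
    rw [norm_sub_rev t0 t1, ← norm_mul, ← norm_mul, ← norm_mul]
    congr 2
    rw [hB, hC, hD]; ring
  have hf2 : f t2 = (‖((g.A : ℝ) : ℂ)‖ * ‖t0 - t2‖ * ‖t1 - t2‖ * ‖t2 - t3‖)⁻¹ := by
    simp only [hf]
    rw [norm_sub_rev t0 t2, norm_sub_rev t1 t2, ← norm_mul, ← norm_mul, ← norm_mul]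
    congr 2
    rw [hB, hC, hD]; ring
  have hf3 : f t3 = (‖((g.A : ℝ) : ℂ)‖ * ‖t0 - t3‖ * ‖t1 - t3‖ * ‖t2 - t3‖)⁻¹ := by
    simp only [hf]
    rw [norm_sub_rev t0 t3, norm_sub_rev t1 t3, norm_sub_rev t2 t3, ← norm_mul, ← norm_mul,
      ← norm_mul]
    congr 2
    rw [hB, hC, hD]; ring
  have hu : ‖U‖ = ‖((g.A : ℝ) : ℂ)‖ * ‖t0 - t1‖ * ‖t2 - t3‖ := by
    rw [hU, norm_mul, norm_mul]
  have hv : ‖V‖ = ‖((g.A : ℝ) : ℂ)‖ * ‖t0 - t2‖ * ‖t1 - t3‖ := by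
    rw [hV, norm_mul, norm_mul, norm_sub_rev t3 t1]
  have hw : ‖W‖ = ‖((g.A : ℝ) : ℂ)‖ * ‖t0 - t3‖ * ‖t1 - t2‖ := by
    rw [hW, norm_mul, norm_mul]
  obtain ⟨ralg1, ralg2⟩ := realAlg ‖((g.A : ℝ) : ℂ)‖ ‖t0 - t1‖ ‖t0 - t2‖ ‖t0 - t3‖ ‖t1 - t2‖
    ‖t1 - t3‖ ‖t2 - t3‖ (norm_pos_iff.2 hAC) (norm_pos_iff.2 h01) (norm_pos_iff.2 h02)
    (norm_pos_iff.2 h03) (norm_pos_iff.2 h12) (norm_pos_iff.2 h13) (norm_pos_iff.2 h23)
    (f t0) (f t1) (f t2) (f t3) ‖U‖ ‖V‖ ‖W‖ N hf0 hf1 hf2 hf3 hu hv hw hN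
  have hpa := norm_pos_iff.2 hAC
  have hp01 := norm_pos_iff.2 h01
  have hp02 := norm_pos_iff.2 h02
  have hp03 := norm_pos_iff.2 h03
  have hp12 := norm_pos_iff.2 h12
  have hp13 := norm_pos_iff.2 h13
  have hp23 := norm_pos_iff.2 h23
  have pf0 : 0 < f t0 := by rw [hf0]; positivity
  have pf1 : 0 < f t1 := by rw [hf1]; positivity
  have pf2 : 0 < f t2 := by rw [hf2]; positivity
  have pf3 : 0 < f t3 := by rw [hf3]; positivity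
  have hsum := sumId (f t0) (f t1) (f t2) (f t3) t0 t1 t2 t3 him
  rw [ralg1] at hsum
  -- bounds
  have hbd : ∀ X : ℂ, X ^ 3 = (((g.I : ℤ) : ℝ) : ℂ) * X + U * V * W →
      ‖X‖ ≤ 1 + |((g.I : ℤ) : ℝ)| + N := by
    intro X hX
    refine resBound _ _ _ (norm_nonneg _) (abs_nonneg _) hNnn ?_
    rw [← norm_pow, hX]
    refine (norm_add_le _ _).trans ?_
    rw [norm_mul, Complex.norm_real, Real.norm_eq_abs, ← hN']
  have hub := hbd U hU3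
  have hvb := hbd V hV3
  have hwb := hbd W hW3
  have hN3 : 27 * N ^ 2 ≤ 4 * |((g.I : ℤ) : ℝ)| ^ 3 + |((g.J : ℤ) : ℝ)| ^ 2 := by
    rw [hN2]
    refine (abs_sub _ _).trans ?_
    rw [abs_mul, abs_pow, abs_pow]
    norm_num
  have hT : (((g.I.natAbs + g.J.natAbs + 2 : ℕ) : ℝ)) =
      |((g.I : ℤ) : ℝ)| + |((g.J : ℤ) : ℝ)| + 2 := by
    push_cast
    rw [Nat.cast_natAbs, Nat.cast_natAbs]
    push_cast
    ring
  obtain ⟨hM1, hM2⟩ := numB _ _ _ (abs_nonneg _) (abs_nonneg _) hT N ‖U‖ ‖V‖ ‖W‖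
    (4 * (2 * (‖U‖ + ‖V‖ + ‖W‖) / N)) hNpos hN1 hN3 hub hvb hwb rfl
  refine ⟨f t0 + f t1 + f t2 + f t3,
    -2 * (f t0 * t0.re + f t1 * t1.re + f t2 * t2.re + f t3 * t3.re),
    f t0 * ‖t0‖ ^ 2 + f t1 * ‖t1‖ ^ 2 + f t2 * ‖t2‖ ^ 2 + f t3 * ‖t3‖ ^ 2, N,
    ![f t0, f t1, f t2, f t3], ![t0, t1, t2, t3], by positivity, ?_, ?_, hNpos, hM2, ?_, ?_, ?_, ?_⟩
  · rw [hsum]
    have := norm_pos_iff.2 hU0
    have := norm_pos_iff.2 hV0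
    have := norm_pos_iff.2 hW0
    positivity
  · rw [hsum]; exact hM1
  · intro i
    fin_cases i <;> simp [pf0, pf1, pf2, pf3]
  · rw [Fin.prod_univ_four]
    have h1 : ‖((g.A : ℝ) : ℂ)‖ ^ 2 = (g.A : ℝ) ^ 2 := by
      rw [Complex.norm_real, Real.norm_eq_abs, sq_abs]
    rw [← h1, ralg2]
    rfl
  · intro x z
    rw [Fin.prod_univ_four]
    have hB' : (g.B : ℂ) = -(g.A : ℂ) * (t0 + t1 + t2 + t3) := by simpa using hB
    have hC' : (g.C : ℂ) = (g.A : ℂ) * (t0 * t1 + t0 * t2 + t0 * t3 + t1 * t2 + t1 * t3 +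
      t2 * t3) := by simpa using hC
    have hD' : (g.D : ℂ) = -(g.A : ℂ) * (t0 * t1 * t2 + t0 * t1 * t3 + t0 * t2 * t3 +
      t1 * t2 * t3) := by simpa using hD
    have hE' : (g.E : ℂ) = (g.A : ℂ) * (t0 * t1 * t2 * t3) := by simpa using hE
    show _ = (g.A : ℂ) * ((x - t0 * z) * (x - t1 * z) * (x - t2 * z) * (x - t3 * z))
    rw [hB', hC', hD', hE']
    ring
  · intro x z
    rw [Fin.sum_univ_four]
    show _ = f t0 * ‖(x : ℂ) - t0 * z‖ ^ 2 + f t1 * ‖(x : ℂ) - t1 * z‖ ^ 2 +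
      f t2 * ‖(x : ℂ) - t2 * z‖ ^ 2 + f t3 * ‖(x : ℂ) - t3 * z‖ ^ 2
    simp only [← Complex.normSq_eq_norm_sq, Complex.normSq_apply, Complex.sub_re, Complex.sub_im,
      Complex.mul_re, Complex.mul_im, Complex.ofReal_re, Complex.ofReal_im, mul_zero, sub_zero,
      zero_add]
    ring

end Pool.Agent.H355.QR.F2
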